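import Pool.Agent.PCS.All

/-!
Groups acting on rooted trees of bounded valency which are contracting outside a part of bounded
Strahler number: if the growth is not polynomial there are two infinite commuting subgroups.
-/

open scoped Pointwise

namespace Pool.Agent.Results.MP_c4a8aa_al.BoundedStrahler

/-- The group `P` contains two infinite subgroups which commute elementwise. -/
def CommutingInfinite (P : Type) [Group P] : Prop :=
  ∃ A B : Subgroup P, (A : Set P).Infinite ∧ (B : Set P).Infinite ∧ ∀ a ∈ A, ∀ b ∈ B, a * b = b * a

/-- The growth of the subgroup generated by the finite set `S` is not bounded by a polynomial. -/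
def NotPolynomial {G : Type} [Group G] [DecidableEq G] (S : Finset G) : Prop :=
  ∀ d : ℕ, ∀ C : ℝ, ∃ n : ℕ, C * ((n : ℝ) + 1) ^ d < ((((S ∪ S⁻¹ ∪ {1}) ^ n).card : ℕ) : ℝ)

/-- `IsSec sec h n g`: the element `h` of the group `G m` is an iterated section of `g : G n`. -/
inductive IsSec {G : ℕ → Type} {X : ℕ → Type} (sec : ∀ n, G n → X n → G (n + 1)) {m : ℕ}
    (h : G m) : (n : ℕ) → G n → Prop
  | refl : IsSec sec h m h
  | step (n : ℕ) (g : G n) (x : X n) : IsSec sec h (n + 1) (sec n g x) → IsSec sec h n g

/-- `HasBinary sec A k n g`: the tree of the iterated sections of `g : G n` contains a subdivision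
of the complete binary tree of height `k` whose leaves are not in `A`. -/
inductive HasBinary {G : ℕ → Type} {X : ℕ → Type} (sec : ∀ n, G n → X n → G (n + 1))
    (A : ∀ n, Set (G n)) : ℕ → (n : ℕ) → G n → Prop
  | leaf (n : ℕ) (g : G n) : g ∉ A n → HasBinary sec A 0 n g
  | node (k n : ℕ) (g : G n) (x y : X n) : x ≠ y → HasBinary sec A k (n + 1) (sec n g x) →
      HasBinary sec A k (n + 1) (sec n g y) → HasBinary sec A (k + 1) n g
  | down (k n : ℕ) (g : G n) (x : X n) : HasBinary sec A k (n + 1) (sec n g x) →
      HasBinary sec A k n g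

/-- **Groups acting on rooted trees, contracting outside a part of bounded Strahler number.** Let
`G 0, G 1, ...` be groups, `G n` acting on a finite set `X n` with at most `d` elements, with
sections in `G (n + 1)`. Let `A n ⊆ G n` be sets with at most `q` elements, `1 ∈ A n`, such that
the sections at depth `K` of the products of two elements of `A n` lie in `A (n + K)`. Let `S` be a
finite set of elements of `G 0` such that for no `s ∈ S ∪ S⁻¹` the tree of the sections of `s`
contains a subdivision of the complete binary tree of height `R` with leaves outside `A`, and such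
that only finitely many elements of the group generated by `S` act trivially on the tree of all
words. If the growth of the group generated by `S` is not polynomial, then this group contains two
infinite subgroups which commute elementwise. -/
theorem result :
    ∀ (G : ℕ → Type) [∀ n, Group (G n)] [DecidableEq (G 0)] (X : ℕ → Type) [∀ n, Finite (X n)]
      [∀ n, MulAction (G n) (X n)] (sec : ∀ n, G n → X n → G (n + 1)) (A : ∀ n, Set (G n))
      (d q K R : ℕ),
      (∀ n (g h : G n) (x : X n), sec n (g * h) x = sec n g (h • x) * sec n h x) →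
      (∀ n, Nat.card (X n) ≤ d) → (∀ n, (A n).Finite ∧ (A n).ncard ≤ q) →
      (∀ n, (1 : G n) ∈ A n) →
      (∀ n, ∀ g ∈ A n * A n, ∀ h : G (n + K), IsSec sec h n g → h ∈ A (n + K)) →
      ∀ S : Finset (G 0), (∀ s ∈ S ∪ S⁻¹, ¬ HasBinary sec A R 0 s) →
        {g : G 0 | g ∈ Subgroup.closure (S : Set (G 0)) ∧
          ∀ m (h : G m), IsSec sec h 0 g → ∀ x : X m, h • x = x}.Finite →
        NotPolynomial S → CommutingInfinite (Subgroup.closure (S : Set (G 0))) := by
  intro G _ _ X _ _ sec A d q K R hsec hX hA h1 hcon S hS hker hgr
  have tr : ∀ {m : ℕ} {h : G m} {n : ℕ} {g : G n}, Pool.Agent.PCS.IsSec sec h n g →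
      IsSec sec h n g := by
    intro m h n g hs
    induction hs with
    | refl => exact IsSec.refl
    | step n g x _ ih => exact IsSec.step n g x ih
  have tr' : ∀ {m : ℕ} {h : G m} {n : ℕ} {g : G n}, IsSec sec h n g →
      Pool.Agent.PCS.IsSec sec h n g := by
    intro m h n g hs
    induction hs with
    | refl => exact Pool.Agent.PCS.IsSec.refl
    | step n g x _ ih => exact Pool.Agent.PCS.IsSec.step n g x ih
  have tb : ∀ {k n : ℕ} {g : G n}, Pool.Agent.PCS.HasBinary sec A k n g →
      HasBinary sec A k n g := by
    intro k n g hs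
    induction hs with
    | leaf n g hg => exact HasBinary.leaf n g hg
    | node k n g x y hxy _ _ ih1 ih2 => exact HasBinary.node k n g x y hxy ih1 ih2
    | down k n g x _ ih => exact HasBinary.down k n g x ih
  refine Pool.Agent.PCS.All.pFIN G X sec A d q K R hsec hX hA h1 ?_ S
    (fun s hs hb => hS s hs (tb hb)) ?_ hgr
  · intro n g hg m h hm hs
    subst hm
    exact hcon n g hg h (tr hs)
  · refine hker.subset ?_
    rintro g ⟨hg, h2⟩
    exact ⟨hg, fun m h hs x => h2 m h (tr' hs) x⟩

end Pool.Agent.Results.MP_c4a8aa_al.BoundedStrahler
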