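import Pool.Agent.Helper67_CIP.HKS
import Pool.Agent.FGT.All

/-!
Infinite amenable subgroups of the topological full group of a minimal homeomorphism contain two
infinite commuting subgroups (or an infinite locally finite subgroup which is not locally soluble).
-/

namespace Pool.Agent.Results.MP_c4a8aa_al.MinimalFullGroups

open Pool.Agent.H22.CIG Pool.Agent.H67.CIP Pool.Agent.H50.CIG

theorem result {X : Type*} [TopologicalSpace X] [CompactSpace X] [T2Space X] [Infinite X]
    (T : X ≃ₜ X) (hT : ∀ x : X, Dense (Set.range fun i : ℤ => (T ^ i) x))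
    {G : Type*} [Group G] [Infinite G] [MulAction G X] [FaithfulSMul G X]
    (n : G → X → ℤ) (hn : ∀ g : G, Continuous (n g))
    (hact : ∀ (g : G) (x : X), g • x = (T ^ n g x) x)
    (hF : ∀ S : Finset G, ∀ ε : ℝ, 0 < ε → ∃ F : Finset G, F.Nonempty ∧
      ∀ s ∈ S, ({g : G | g ∈ F ∧ s * g ∉ F}.ncard : ℝ) ≤ ε * F.card) :
    (∃ A B : Subgroup G, (A : Set G).Infinite ∧ (B : Set G).Infinite ∧
      ∀ a ∈ A, ∀ b ∈ B, a * b = b * a) ∨
    ∃ L : Subgroup G, (L : Set G).Infinite ∧
      (∀ s : Finset G, (s : Set G) ⊆ L →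
        ((Subgroup.closure (s : Set G) : Subgroup G) : Set G).Finite) ∧
      ∃ P : Subgroup G, P ≤ L ∧ (P : Set G).Finite ∧ ¬ Group.IsSolvable P := by
  classical
  rcases Pool.Agent.FGT.All.pFIN X T hT G ⟨n, hn, hact, aperiodic T hT⟩ inferInstance hF with
    h | ⟨L, hL, hinf⟩
  · exact Or.inl h
  · by_cases hsol : ∀ P : Subgroup G, P ≤ L → (P : Set G).Finite → Group.IsSolvable P
    · exact Or.inl (CI.of_locsol L hL hinf hsol)
    · right
      push Not at hsol
      exact ⟨L, hinf, fun s hs => hL s fun x hx => hs hx, hsol⟩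

end Pool.Agent.Results.MP_c4a8aa_al.MinimalFullGroups
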