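import Mathlib
import Pool.Agent.Helper45_CIG.Ray

set_option autoImplicit false

namespace Pool.Agent.Results.MP_c4a8aa_al.RayStabilizers

/-- **Infinite stabilizers of generic points.** Let a countable group `G` act by homeomorphisms
on a compact Hausdorff totally disconnected space `X`, with finite kernel, with all orbits dense,
and such that every clopen set has only finitely many translates (for example the action on the
boundary of a locally finite rooted tree, transitive on every level). If the set of the points
with infinite stabilizer is not meagre, then `G` contains two infinite subgroups which commute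
elementwise. -/
theorem result :
    ∀ (G : Type) [Group G] [Countable G] (X : Type) [TopologicalSpace X] [CompactSpace X]
      [T2Space X] [TotallyDisconnectedSpace X] [MulAction G X],
      (∀ g : G, Continuous fun x : X => g • x) →
      {g : G | ∀ x : X, g • x = x}.Finite →
      (∀ x : X, Dense {y : X | ∃ g : G, y = g • x}) →
      (∀ U : Set X, IsClopen U → {V : Set X | ∃ g : G, V = {x | g⁻¹ • x ∈ U}}.Finite) →
      ¬ IsMeagre {x : X | {g : G | g • x = x}.Infinite} →
      ∃ A B : Subgroup G, (A : Set G).Infinite ∧ (B : Set G).Infinite ∧
        ∀ a ∈ A, ∀ b ∈ B, a * b = b * a := by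
  intro G _ _ X _ _ _ _ _ h1 h2 h3 h4 h5
  exact Pool.Agent.Helper45CIG.ray h2 h1 h3 h4 h5

end Pool.Agent.Results.MP_c4a8aa_al.RayStabilizers
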