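import Mathlib
import Pool.Agent.Helper45_ZGO.Final

set_option autoImplicit false

namespace Pool.Agent.Results.MP_c4a8aa_al.SelfReplicating

/-- **Isomorphic sections on two levels.** Let `G` be a finitely generated infinite group, `D' < D`
two different subgroups of finite index, and let `f : D → Q`, `f' : D' → Q` be homomorphisms onto one
and the same group `Q`, the kernel of `f` contained in the kernel of `f'`. If every normal subgroup of
`G` inside the kernel of `f'` is finite, then `G` contains two infinite subgroups which commute
elementwise.

For `D = Q = G`, `f` the identity and `f'` the section map of a vertex this is the class of all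
self-replicating groups. For a group acting on a rooted tree, faithfully and transitively on the
levels, `D` and `D'` are stabilizers of vertices of one ray and `Q` is the group of the sections at
both vertices. There is no hypothesis on growth, contraction, activity or branching. -/
theorem result :
    ∀ (G : Type) [Group G] [Group.FG G] [Infinite G] (D D' : Subgroup G) (Q : Type) [Group Q]
      (f : D →* Q) (f' : D' →* Q), D'.FiniteIndex → D' ≤ D → D' ≠ D →
      Function.Surjective f → Function.Surjective f' →
      (∀ g : D, f g = 1 → ∃ h : (g : G) ∈ D', f' ⟨g, h⟩ = 1) →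
      (∀ N : Subgroup G, N.Normal → (∀ y ∈ N, ∃ h : y ∈ D', f' ⟨y, h⟩ = 1) →
        (N : Set G).Finite) →
      ∃ A B : Subgroup G, (A : Set G).Infinite ∧ (B : Set G).Infinite ∧
        ∀ a ∈ A, ∀ b ∈ B, a * b = b * a := by
  intro G _ _ _ D D' Q _ f f' h1 h2 h3 h4 h5 h6 h7
  exact Pool.Agent.ZGO.H45.srs' G D D' Q f f' h1 h2 h3 h4 h5 h6 h7

end Pool.Agent.Results.MP_c4a8aa_al.SelfReplicating
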